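import Mathlib

/-!
# MP_c377d9_an: log-rescaled Gagliardo energy of mollifications

For `u` in `B^{1/q}_{q,∞}` and every integrable kernel `η`,
`liminf [u_ε]^q_{W^{1/q,q}} / |ln ε| ≥ |∫ η|^q * N * liminf_{r → 0} E_r(u)`, where
`E_r(u) = ∫ ∫_{B_r(x)} r^{-N} |u(x)-u(y)|^q / |x-y| dy dx` is the quantity in the third fact
listed in the problem file, which says `(κ_N / N) ∫_{J_u} |u⁺-u⁻|^q ≤ liminf E_r(u)`. So the two
together are the inequality of Q1; existence of the limit `L(u)` is not needed.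

Proof: (1) with `D u z = ∫ |u(x+z)-u(x)|^q dx`, one has
`|∫ η|^q D u z ≤ (1-θ)^(1-q) D u_ε z + θ^(1-q) C ∫ |η(w)| min(|z|, ε|w|) dw` (`diff_bound`);
(2) integrated over the ball of radius `r ≥ K² ε` this compares `E_r(u)` and `E_r(u_ε)` up to a
small multiple (`ball_bound`); (3) `N ∫ E_r(v) dr/r ≤ [v]^q` by Tonelli (`gag_lower`); (4) the
logarithmic average over `(K² ε, r0)` of `E_r(u)` is at least its liminf.
-/

open MeasureTheory Set Filter Topology
open scoped ENNReal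

namespace Pool.Agent.Results.MP_c377d9_an.LogGagliardo

/-- Euclidean space -/
abbrev Eu (n : ℕ) : Type := EuclideanSpace ℝ (Fin n)

lemma holder_weight {α : Type*} [MeasurableSpace α] (μ : Measure α) {q : ℝ} (hq : 1 < q)
    {a h : α → ℝ≥0∞} (ha : AEMeasurable a μ) (hh : AEMeasurable h μ) :
    (∫⁻ x, a x * h x ∂μ) ^ q ≤ (∫⁻ x, a x ∂μ) ^ (q - 1) * ∫⁻ x, a x * h x ^ q ∂μ := by
  have hq0 : 0 < q := by linarith
  set p : ℝ := q / (q - 1) with hp
  have hp0 : 0 < p := div_pos hq0 (by linarith)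
  have hpq : p.HolderConjugate q := by
    rw [Real.holderConjugate_iff]
    constructor
    · rw [hp, lt_div_iff₀ (by linarith)]; linarith
    · rw [hp]
      have : q - 1 ≠ 0 := by linarith
      field_simp
      ring
  have h1 := ENNReal.lintegral_mul_le_Lp_mul_Lq μ hpq (f := fun x => a x ^ (1 / p))
    (g := fun x => a x ^ (1 / q) * h x) (ha.pow_const _) ((ha.pow_const _).mul hh)
  have h2 : ∀ x, ((fun x => a x ^ (1 / p)) * (fun x => a x ^ (1 / q) * h x)) x = a x * h x := by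
    intro x
    simp only [Pi.mul_apply]
    rw [← mul_assoc, ← ENNReal.rpow_add_of_nonneg _ _ (by positivity) (by positivity)]
    have := hpq.inv_add_inv_eq_one
    rw [one_div, one_div, this, ENNReal.rpow_one]
  simp_rw [h2] at h1
  have h3 : ∀ x, (a x ^ (1 / p)) ^ p = a x := by
    intro x
    rw [← ENNReal.rpow_mul, one_div, inv_mul_cancel₀ hp0.ne', ENNReal.rpow_one]
  have h4 : ∀ x, (a x ^ (1 / q) * h x) ^ q = a x * h x ^ q := by
    intro x
    rw [ENNReal.mul_rpow_of_nonneg _ _ hq0.le, ← ENNReal.rpow_mul, one_div,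
      inv_mul_cancel₀ hq0.ne', ENNReal.rpow_one]
  simp_rw [h3, h4] at h1
  calc (∫⁻ x, a x * h x ∂μ) ^ q
      ≤ ((∫⁻ x, a x ∂μ) ^ (1 / p) * (∫⁻ x, a x * h x ^ q ∂μ) ^ (1 / q)) ^ q := by
        gcongr
    _ = (∫⁻ x, a x ∂μ) ^ (q - 1) * ∫⁻ x, a x * h x ^ q ∂μ := by
        rw [ENNReal.mul_rpow_of_nonneg _ _ hq0.le, ← ENNReal.rpow_mul, ← ENNReal.rpow_mul]
        congr 1
        · congr 1
          rw [hp]
          have : q - 1 ≠ 0 := by linarith
          field_simp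
        · rw [one_div, inv_mul_cancel₀ hq0.ne', ENNReal.rpow_one]

lemma weighted {q θ : ℝ} (hq : 1 < q) (h0 : 0 < θ) (h1 : θ < 1) (a b : ℝ≥0∞) :
    (a + b) ^ q ≤ ENNReal.ofReal ((1 - θ) ^ (1 - q)) * a ^ q
      + ENNReal.ofReal (θ ^ (1 - q)) * b ^ q := by
  have hq0 : 0 ≤ q := by linarith
  have key : ∀ t : ℝ, 0 < t → ∀ c : ℝ≥0∞,
      ENNReal.ofReal t * (c / ENNReal.ofReal t) ^ q = ENNReal.ofReal (t ^ (1 - q)) * c ^ q := by
    intro t ht c
    have ht' : ENNReal.ofReal t ≠ 0 := by simpa using ht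
    rw [ENNReal.div_rpow_of_nonneg _ _ hq0, ← ENNReal.ofReal_rpow_of_pos ht,
      ENNReal.rpow_sub _ _ ht' ENNReal.ofReal_ne_top, ENNReal.rpow_one,
      div_eq_mul_inv, div_eq_mul_inv]
    ring
  have h2 := ENNReal.rpow_arith_mean_le_arith_mean2_rpow (ENNReal.ofReal (1 - θ))
    (ENNReal.ofReal θ) (a / ENNReal.ofReal (1 - θ)) (b / ENNReal.ofReal θ)
    (by rw [← ENNReal.ofReal_add (by linarith) h0.le]; simp) hq.le
  rw [key _ (by linarith), key _ h0, ENNReal.mul_div_cancel (by simpa using h1)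
    ENNReal.ofReal_ne_top, ENNReal.mul_div_cancel (by simpa using h0)
    ENNReal.ofReal_ne_top] at h2
  exact h2

variable {N d : ℕ}

/-- `∫ |u(x+z) - u(x)|^q dx` -/
noncomputable def D (q : ℝ) (u : Eu N → Eu d) (z : Eu N) : ℝ≥0∞ :=
  ∫⁻ x, ‖u (x + z) - u x‖ₑ ^ q

/-- The `q`-th power of the Besov seminorm. -/
noncomputable def besov (q : ℝ) (u : Eu N → Eu d) : ℝ≥0∞ :=
  ⨆ (h : Eu N) (_ : h ≠ 0), ∫⁻ x, ‖u (x + h) - u x‖ₑ ^ q / ‖h‖ₑ

/-- The `q`-th power of the Gagliardo seminorm of `W^{1/q,q}`. -/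
noncomputable def gagliardo (q : ℝ) (v : Eu N → Eu d) : ℝ≥0∞ :=
  ∫⁻ x, ∫⁻ y, ‖v x - v y‖ₑ ^ q / ‖x - y‖ₑ ^ (N + 1)

/-- The mollification `u_ε`. -/
noncomputable def moll (η : Eu N → ℝ) (ε : ℝ) (u : Eu N → Eu d) (x : Eu N) : Eu d :=
  ∫ z, η z • u (x - ε • z)

/-- `∫ ∫_{B_r(x)} r^{-N} |u(x)-u(y)|^q/|x-y| dy dx` -/
noncomputable def ballEnergy (q : ℝ) (u : Eu N → Eu d) (r : ℝ) : ℝ≥0∞ :=
  ∫⁻ x, ∫⁻ y in Metric.ball x r, (ENNReal.ofReal r ^ N)⁻¹ * (‖u x - u y‖ₑ ^ q / ‖x - y‖ₑ)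

lemma D_zero {q : ℝ} (hq : 1 < q) (u : Eu N → Eu d) : D q u 0 = 0 := by
  simp [D, ENNReal.zero_rpow_of_pos (by linarith : (0:ℝ) < q)]

lemma D_le {q : ℝ} (hq : 1 < q) {u : Eu N → Eu d} (hu : Measurable u) (z : Eu N) :
    D q u z ≤ besov q u * ‖z‖ₑ := by
  by_cases hz : z = 0
  · subst hz; rw [D_zero hq]; exact zero_le
  · have h1 : ∫⁻ x, ‖u (x + z) - u x‖ₑ ^ q / ‖z‖ₑ ≤ besov q u := by
      unfold besov
      exact le_iSup₂ (f := fun (h : Eu N) (_ : h ≠ 0) => ∫⁻ x, ‖u (x + h) - u x‖ₑ ^ q / ‖h‖ₑ) z hz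
    have h2 : ∫⁻ x, ‖u (x + z) - u x‖ₑ ^ q / ‖z‖ₑ = D q u z / ‖z‖ₑ := by
      simp only [div_eq_mul_inv, D]
      rw [lintegral_mul_const]
      fun_prop
    rw [h2] at h1
    exact (ENNReal.div_le_iff (by simpa using hz) (by simp)).mp h1

end Pool.Agent.Results.MP_c377d9_an.LogGagliardo

namespace Pool.Agent.Results.MP_c377d9_an.LogGagliardo
variable {N d : ℕ}

lemma gag_eq {q : ℝ} {v : Eu N → Eu d} (hv : Measurable v) :
    gagliardo q v = ∫⁻ z, D q v z / ‖z‖ₑ ^ (N + 1) := by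
  unfold gagliardo
  have h1 : ∀ x, ∫⁻ y, ‖v x - v y‖ₑ ^ q / ‖x - y‖ₑ ^ (N + 1)
      = ∫⁻ z, ‖v (x + z) - v x‖ₑ ^ q / ‖z‖ₑ ^ (N + 1) := by
    intro x
    rw [← lintegral_add_left_eq_self _ x]
    apply lintegral_congr
    intro z
    rw [enorm_sub_rev (v x), show x - (x + z) = -z by abel, enorm_neg]
  simp_rw [h1]
  rw [lintegral_lintegral_swap]
  · apply lintegral_congr
    intro z
    simp only [D, div_eq_mul_inv]
    rw [lintegral_mul_const]
    fun_prop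
  · apply Measurable.aemeasurable
    unfold Function.uncurry
    fun_prop

lemma ball_eq {q : ℝ} {u : Eu N → Eu d} (hu : Measurable u) (r : ℝ) :
    ballEnergy q u r = (ENNReal.ofReal r ^ N)⁻¹ *
      ∫⁻ z in Metric.ball 0 r, D q u z / ‖z‖ₑ := by
  unfold ballEnergy
  have h1 : ∀ x, ∫⁻ y in Metric.ball x r, (ENNReal.ofReal r ^ N)⁻¹ * (‖u x - u y‖ₑ ^ q / ‖x - y‖ₑ)
      = ∫⁻ z in Metric.ball 0 r, (ENNReal.ofReal r ^ N)⁻¹ * (‖u (x + z) - u x‖ₑ ^ q / ‖z‖ₑ) := by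
    intro x
    rw [← lintegral_indicator Metric.isOpen_ball.measurableSet,
      ← lintegral_indicator Metric.isOpen_ball.measurableSet, ← lintegral_add_left_eq_self _ x]
    apply lintegral_congr
    intro z
    by_cases hz : z ∈ Metric.ball (0 : Eu N) r
    · have hz' : x + z ∈ Metric.ball x r := by
        rw [Metric.mem_ball, dist_eq_norm] at hz ⊢
        simpa using hz
      rw [indicator_of_mem hz, indicator_of_mem hz', enorm_sub_rev (u x),
        show x - (x + z) = -z by abel, enorm_neg]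
    · have hz' : x + z ∉ Metric.ball x r := by
        rw [Metric.mem_ball, dist_eq_norm] at hz ⊢
        simpa using hz
      rw [indicator_of_notMem hz, indicator_of_notMem hz']
  simp_rw [h1]
  rw [lintegral_lintegral_swap]
  · rw [← lintegral_const_mul]
    · apply lintegral_congr
      intro z
      simp only [D, div_eq_mul_inv]
      rw [lintegral_const_mul, lintegral_mul_const]
      · fun_prop
      · fun_prop
    · have : Measurable (fun z => D q u z) := by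
        unfold D
        apply Measurable.lintegral_prod_left'
          (f := fun p : Eu N × Eu N => ‖u (p.1 + p.2) - u p.1‖ₑ ^ q)
        fun_prop
      fun_prop
  · apply Measurable.aemeasurable
    unfold Function.uncurry
    fun_prop

lemma measurable_D {q : ℝ} {u : Eu N → Eu d} (hu : Measurable u) :
    Measurable (fun z => D q u z) := by
  unfold D
  apply Measurable.lintegral_prod_left'
    (f := fun p : Eu N × Eu N => ‖u (p.1 + p.2) - u p.1‖ₑ ^ q)
  fun_prop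

lemma radial_int (hN : 0 < N) {s : ℝ} (hs : 0 < s) :
    (N : ℝ≥0∞) * ∫⁻ r in Ioi s, (ENNReal.ofReal r)⁻¹ * (ENNReal.ofReal r ^ N)⁻¹
      = (ENNReal.ofReal s ^ N)⁻¹ := by
  have hN' : (0:ℝ) < N := by exact_mod_cast hN
  have h1 : ∫⁻ r in Ioi s, (ENNReal.ofReal r)⁻¹ * (ENNReal.ofReal r ^ N)⁻¹
      = ∫⁻ r in Ioi s, ENNReal.ofReal (r ^ (-(N:ℝ) - 1)) := by
    apply setLIntegral_congr_fun measurableSet_Ioi
    intro r hr
    have hr0 : 0 < r := hs.trans hr
    simp only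
    rw [← ENNReal.ofReal_inv_of_pos hr0, ← ENNReal.ofReal_pow hr0.le,
      ← ENNReal.ofReal_inv_of_pos (by positivity), ← ENNReal.ofReal_mul (by positivity)]
    congr 1
    rw [Real.rpow_sub hr0, Real.rpow_neg hr0.le, Real.rpow_natCast, Real.rpow_one]
    field_simp
  have hint := integrableOn_Ioi_rpow_of_lt (a := -(N:ℝ) - 1) (c := s) (by linarith) hs
  rw [h1, ← ofReal_integral_eq_lintegral_ofReal hint, integral_Ioi_rpow_of_lt (by linarith) hs]
  · rw [← ENNReal.ofReal_natCast N, ← ENNReal.ofReal_mul hN'.le, ← ENNReal.ofReal_pow hs.le,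
      ← ENNReal.ofReal_inv_of_pos (by positivity)]
    congr 1
    rw [show -(N:ℝ) - 1 + 1 = -(N:ℝ) by ring, Real.rpow_neg hs.le, Real.rpow_natCast]
    field_simp
  · rw [Filter.EventuallyLE, ae_restrict_iff' measurableSet_Ioi]
    refine Eventually.of_forall fun r hr => ?_
    have hr0 : 0 < r := hs.trans hr
    positivity

lemma radial (hN : 0 < N) {Φ : Eu N → ℝ≥0∞} (hΦ : Measurable Φ) (a : ℝ) :
    (N : ℝ≥0∞) * ∫⁻ r in Ioo a 1, (ENNReal.ofReal r)⁻¹ *
      ((ENNReal.ofReal r ^ N)⁻¹ * ∫⁻ z in Metric.ball 0 r, Φ z) ≤ ∫⁻ z, Φ z / ‖z‖ₑ ^ N := by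
  have h1 : ∀ r, (ENNReal.ofReal r)⁻¹ *
      ((ENNReal.ofReal r ^ N)⁻¹ * ∫⁻ z in Metric.ball 0 r, Φ z)
      = ∫⁻ z, (Ioi ‖z‖).indicator (fun r => (ENNReal.ofReal r)⁻¹ * (ENNReal.ofReal r ^ N)⁻¹) r
        * Φ z := by
    intro r
    rw [← mul_assoc, ← lintegral_const_mul _ hΦ,
      ← lintegral_indicator Metric.isOpen_ball.measurableSet]
    apply lintegral_congr
    intro z
    by_cases hz : z ∈ Metric.ball (0 : Eu N) r
    · have hz' : r ∈ Ioi ‖z‖ := by simpa using hz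
      rw [indicator_of_mem hz, indicator_of_mem hz']
    · have hz' : r ∉ Ioi ‖z‖ := by simpa using hz
      rw [indicator_of_notMem hz, indicator_of_notMem hz', zero_mul]
  simp_rw [h1]
  have hmeas : Measurable (Function.uncurry fun (r : ℝ) (z : Eu N) =>
      (Ioi ‖z‖).indicator (fun r => (ENNReal.ofReal r)⁻¹ * (ENNReal.ofReal r ^ N)⁻¹) r * Φ z) := by
    have : (Function.uncurry fun (r : ℝ) (z : Eu N) =>
      (Ioi ‖z‖).indicator (fun r => (ENNReal.ofReal r)⁻¹ * (ENNReal.ofReal r ^ N)⁻¹) r * Φ z)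
      = fun p : ℝ × Eu N => ({p : ℝ × Eu N | ‖p.2‖ < p.1}).indicator
        (fun p => (ENNReal.ofReal p.1)⁻¹ * (ENNReal.ofReal p.1 ^ N)⁻¹) p * Φ p.2 := by
      funext p
      rfl
    rw [this]
    apply Measurable.mul
    · apply Measurable.indicator
      · fun_prop
      · exact measurableSet_lt (by fun_prop) (by fun_prop)
    · fun_prop
  rw [lintegral_lintegral_swap hmeas.aemeasurable, ← lintegral_const_mul]
  · apply lintegral_mono
    intro z
    simp only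
    by_cases hz : z = 0
    · subst hz
      by_cases h0 : Φ 0 = 0
      · simp [h0]
      · rw [enorm_zero, zero_pow hN.ne', ENNReal.div_zero h0]
        exact le_top
    · have hz0 : 0 < ‖z‖ := norm_pos_iff.mpr hz
      rw [lintegral_mul_const, ← mul_assoc, mul_comm, div_eq_mul_inv]
      · gcongr
        calc (N : ℝ≥0∞) * ∫⁻ r in Ioo a 1, (Ioi ‖z‖).indicator
              (fun r => (ENNReal.ofReal r)⁻¹ * (ENNReal.ofReal r ^ N)⁻¹) r
            ≤ (N : ℝ≥0∞) * ∫⁻ r, (Ioi ‖z‖).indicator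
              (fun r => (ENNReal.ofReal r)⁻¹ * (ENNReal.ofReal r ^ N)⁻¹) r := by
              gcongr
              exact Measure.restrict_le_self
          _ = (‖z‖ₑ ^ N)⁻¹ := by
              rw [lintegral_indicator measurableSet_Ioi, radial_int hN hz0, ofReal_norm]
      · apply Measurable.indicator _ measurableSet_Ioi
        fun_prop
  · exact hmeas.lintegral_prod_left'

end Pool.Agent.Results.MP_c377d9_an.LogGagliardo

namespace Pool.Agent.Results.MP_c377d9_an.LogGagliardo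
variable {N d : ℕ}

lemma conv_bound {q : ℝ} (hq : 1 < q) {η : Eu N → ℝ} (hη : Measurable η)
    {g : Eu N → Eu N → ℝ≥0∞} (hg : Measurable (Function.uncurry g)) :
    ∫⁻ x, (∫⁻ w, ‖η w‖ₑ * g x w) ^ q ≤
      (∫⁻ w, ‖η w‖ₑ) ^ (q - 1) * ∫⁻ w, ‖η w‖ₑ * ∫⁻ x, g x w ^ q := by
  have hg1 : ∀ x, Measurable (g x) := fun x => hg.comp measurable_prodMk_left
  have hg2 : ∀ w, Measurable (fun x => g x w) := fun w => hg.comp measurable_prodMk_right
  calc ∫⁻ x, (∫⁻ w, ‖η w‖ₑ * g x w) ^ q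
      ≤ ∫⁻ x, (∫⁻ w, ‖η w‖ₑ) ^ (q - 1) * ∫⁻ w, ‖η w‖ₑ * g x w ^ q :=
        lintegral_mono fun x => holder_weight volume hq hη.enorm.aemeasurable (hg1 x).aemeasurable
    _ = (∫⁻ w, ‖η w‖ₑ) ^ (q - 1) * ∫⁻ x, ∫⁻ w, ‖η w‖ₑ * g x w ^ q := by
        rw [lintegral_const_mul]
        have : Measurable (Function.uncurry fun (x w : Eu N) => ‖η w‖ₑ * g x w ^ q) := by
          apply Measurable.mul
          · exact (hη.comp measurable_snd).enorm
          · exact hg.pow_const _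
        exact this.lintegral_prod_right'
    _ = _ := by
        rw [lintegral_lintegral_swap]
        · congr 1
          apply lintegral_congr
          intro w
          rw [lintegral_const_mul _ ((hg2 w).pow_const _)]
        · apply Measurable.aemeasurable
          apply Measurable.mul
          · exact (hη.comp measurable_snd).enorm
          · exact hg.pow_const _

lemma ae_integrable {q : ℝ} (hq : 1 < q) {η : Eu N → ℝ} (hη : Measurable η)
    (hηi : Integrable η) {u : Eu N → Eu d} (hu : Measurable u)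
    (huq : ∫⁻ x, ‖u x‖ₑ ^ q < ∞) (ε : ℝ) :
    ∀ᵐ x, Integrable (fun w => η w • u (x - ε • w)) := by
  have hA : ∫⁻ w, ‖η w‖ₑ < ∞ := hηi.2
  have hg : Measurable (Function.uncurry fun (x w : Eu N) => ‖u (x - ε • w)‖ₑ) := by
    unfold Function.uncurry
    fun_prop
  have h1 := conv_bound hq hη hg
  have h2 : ∀ w, ∫⁻ x, ‖u (x - ε • w)‖ₑ ^ q = ∫⁻ x, ‖u x‖ₑ ^ q := fun w =>
    lintegral_sub_right_eq_self (fun x => ‖u x‖ₑ ^ q) (ε • w)
  simp_rw [h2] at h1
  rw [lintegral_mul_const _ hη.enorm] at h1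
  have h3 : ∫⁻ x, (∫⁻ w, ‖η w‖ₑ * ‖u (x - ε • w)‖ₑ) ^ q ≠ ∞ := by
    refine (h1.trans_lt ?_).ne
    exact ENNReal.mul_lt_top (ENNReal.rpow_lt_top_of_nonneg (by linarith) hA.ne)
      (ENNReal.mul_lt_top hA huq)
  have hm : Measurable (fun x => (∫⁻ w, ‖η w‖ₑ * ‖u (x - ε • w)‖ₑ) ^ q) := by
    apply Measurable.pow_const
    have : Measurable (Function.uncurry fun (x w : Eu N) => ‖η w‖ₑ * ‖u (x - ε • w)‖ₑ) := by
      unfold Function.uncurry
      fun_prop
    exact this.lintegral_prod_right'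
  filter_upwards [ae_lt_top hm h3] with x hx
  refine ⟨by fun_prop, ?_⟩
  have h4 : ∫⁻ w, ‖η w‖ₑ * ‖u (x - ε • w)‖ₑ < ∞ := by
    by_contra hcon
    push Not at hcon
    rw [top_le_iff.mp hcon, ENNReal.top_rpow_of_pos (by linarith)] at hx
    exact lt_irrefl _ hx
  simpa only [HasFiniteIntegral, enorm_smul] using h4

lemma inner_bound {q : ℝ} (hq : 1 < q) {u : Eu N → Eu d} (hu : Measurable u) (z h : Eu N) :
    ∫⁻ x, ‖(u (x - h + z) - u (x - h)) - (u (x + z) - u x)‖ₑ ^ q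
      ≤ 2 ^ q * besov q u * min ‖z‖ₑ ‖h‖ₑ := by
  have key : ∀ (f g : Eu N → Eu d), Measurable f → Measurable g →
      ∫⁻ x, ‖f x - g x‖ₑ ^ q ≤ 2 ^ (q - 1) * ((∫⁻ x, ‖f x‖ₑ ^ q) + (∫⁻ x, ‖g x‖ₑ ^ q)) := by
    intro f g hf hg
    rw [← lintegral_add_left (by fun_prop), ← lintegral_const_mul _ (by fun_prop)]
    apply lintegral_mono
    intro x
    calc ‖f x - g x‖ₑ ^ q ≤ (‖f x‖ₑ + ‖g x‖ₑ) ^ q := by
          gcongr
          exact enorm_sub_le
      _ ≤ _ := ENNReal.rpow_add_le_mul_rpow_add_rpow _ _ hq.le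
  have h2 : ∀ b : ℝ≥0∞, (2:ℝ≥0∞) ^ (q - 1) * (b + b) = 2 ^ q * b := by
    intro b
    rw [← two_mul, ← mul_assoc]
    congr 1
    nth_rewrite 2 [← ENNReal.rpow_one 2]
    rw [← ENNReal.rpow_add _ _ (by norm_num) (by norm_num)]
    congr 1
    ring
  rw [mul_min]
  apply le_min
  · have e1 : ∫⁻ x, ‖u (x - h + z) - u (x - h)‖ₑ ^ q = D q u z :=
      lintegral_sub_right_eq_self (fun x => ‖u (x + z) - u x‖ₑ ^ q) h
    refine (key (fun x => u (x - h + z) - u (x - h)) (fun x => u (x + z) - u x)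
      (by fun_prop) (by fun_prop)).trans ?_
    rw [e1]
    change 2 ^ (q - 1) * (D q u z + D q u z) ≤ _
    rw [h2, mul_assoc]
    gcongr
    exact D_le hq hu z
  · have e1 : ∫⁻ x, ‖u (x + z + -h) - u (x + z)‖ₑ ^ q = D q u (-h) :=
      lintegral_add_right_eq_self (fun x => ‖u (x + -h) - u x‖ₑ ^ q) z
    have e2 : ∀ x, (u (x - h + z) - u (x - h)) - (u (x + z) - u x)
        = (u (x + z + -h) - u (x + z)) - (u (x + -h) - u x) := by
      intro x
      rw [show x - h + z = x + z + -h by abel, show x - h = x + -h by abel]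
      abel
    simp_rw [e2]
    refine (key (fun x => u (x + z + -h) - u (x + z)) (fun x => u (x + -h) - u x)
      (by fun_prop) (by fun_prop)).trans ?_
    rw [e1]
    change 2 ^ (q - 1) * (D q u (-h) + D q u (-h)) ≤ _
    rw [h2, mul_assoc, ← enorm_neg h]
    gcongr
    exact D_le hq hu (-h)

lemma diff_bound {q : ℝ} (hq : 1 < q) {θ : ℝ} (h0 : 0 < θ) (h1 : θ < 1)
    {η : Eu N → ℝ} (hη : Measurable η)
    (hηi : Integrable η) {u : Eu N → Eu d} (hu : Measurable u)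
    (huq : ∫⁻ x, ‖u x‖ₑ ^ q < ∞) (ε : ℝ) (z : Eu N) :
    ‖∫ w, η w‖ₑ ^ q * D q u z ≤
      ENNReal.ofReal ((1 - θ) ^ (1 - q)) * D q (moll η ε u) z
      + ENNReal.ofReal (θ ^ (1 - q)) * ((∫⁻ w, ‖η w‖ₑ) ^ (q - 1) *
        (2 ^ q * besov q u * ∫⁻ w, ‖η w‖ₑ * min ‖z‖ₑ ‖ε • w‖ₑ)) := by
  set g : Eu N → Eu N → ℝ≥0∞ := fun x w =>
    ‖(u (x - ε • w + z) - u (x - ε • w)) - (u (x + z) - u x)‖ₑ with hgdef
  have hg : Measurable (Function.uncurry g) := by
    rw [hgdef]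
    unfold Function.uncurry
    fun_prop
  have hI := ae_integrable hq hη hηi hu huq ε
  have hI2 : ∀ᵐ x, Integrable (fun w => η w • u (x + z - ε • w)) :=
    (measurePreserving_add_right volume z).quasiMeasurePreserving.tendsto_ae.eventually hI
  have hpt : ∀ᵐ x, ‖∫ w, η w‖ₑ ^ q * ‖u (x + z) - u x‖ₑ ^ q ≤
      ENNReal.ofReal ((1 - θ) ^ (1 - q)) * ‖moll η ε u (x + z) - moll η ε u x‖ₑ ^ q
      + ENNReal.ofReal (θ ^ (1 - q)) * (∫⁻ w, ‖η w‖ₑ * g x w) ^ q := by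
    filter_upwards [hI, hI2] with x hx1 hx2
    have hx3 : Integrable (fun w => η w • (u (x + z) - u x)) := hηi.smul_const _
    have e1 : (∫ w, η w) • (u (x + z) - u x) = (moll η ε u (x + z) - moll η ε u x)
        - ∫ w, η w • ((u (x - ε • w + z) - u (x - ε • w)) - (u (x + z) - u x)) := by
      have e2 : ∀ w, η w • ((u (x - ε • w + z) - u (x - ε • w)) - (u (x + z) - u x))
          = (η w • u (x + z - ε • w) - η w • u (x - ε • w)) - η w • (u (x + z) - u x) := by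
        intro w
        rw [show x - ε • w + z = x + z - ε • w by abel, smul_sub, smul_sub]
      have hx12 : Integrable (fun w => η w • u (x + z - ε • w) - η w • u (x - ε • w)) :=
        hx2.sub hx1
      simp_rw [e2]
      rw [integral_sub hx12 hx3, integral_sub hx2 hx1, integral_smul_const]
      unfold moll
      abel
    have e3 : ‖∫ w, η w‖ₑ * ‖u (x + z) - u x‖ₑ ≤ ‖moll η ε u (x + z) - moll η ε u x‖ₑ
        + ∫⁻ w, ‖η w‖ₑ * g x w := by
      rw [← enorm_smul, e1]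
      refine enorm_sub_le.trans ?_
      gcongr
      refine (enorm_integral_le_lintegral_enorm _).trans_eq ?_
      simp only [enorm_smul, hgdef]
    calc ‖∫ w, η w‖ₑ ^ q * ‖u (x + z) - u x‖ₑ ^ q
        = (‖∫ w, η w‖ₑ * ‖u (x + z) - u x‖ₑ) ^ q := by
          rw [ENNReal.mul_rpow_of_nonneg _ _ (by linarith)]
      _ ≤ (‖moll η ε u (x + z) - moll η ε u x‖ₑ + ∫⁻ w, ‖η w‖ₑ * g x w) ^ q := by
          gcongr
      _ ≤ _ := weighted hq h0 h1 _ _
  have hmm : Measurable (moll η ε u) := by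
    unfold moll
    have : StronglyMeasurable (Function.uncurry fun (x w : Eu N) => η w • u (x - ε • w)) := by
      apply Measurable.stronglyMeasurable
      unfold Function.uncurry
      fun_prop
    exact this.integral_prod_right'.measurable
  calc ‖∫ w, η w‖ₑ ^ q * D q u z
      = ∫⁻ x, ‖∫ w, η w‖ₑ ^ q * ‖u (x + z) - u x‖ₑ ^ q := by
        unfold D
        rw [lintegral_const_mul _ (by fun_prop)]
    _ ≤ ∫⁻ x, (ENNReal.ofReal ((1 - θ) ^ (1 - q)) * ‖moll η ε u (x + z) - moll η ε u x‖ₑ ^ q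
      + ENNReal.ofReal (θ ^ (1 - q)) * (∫⁻ w, ‖η w‖ₑ * g x w) ^ q) := lintegral_mono_ae hpt
    _ = ENNReal.ofReal ((1 - θ) ^ (1 - q)) * D q (moll η ε u) z
      + ENNReal.ofReal (θ ^ (1 - q)) * ∫⁻ x, (∫⁻ w, ‖η w‖ₑ * g x w) ^ q := by
        rw [lintegral_add_left (by fun_prop), lintegral_const_mul _ (by fun_prop),
          lintegral_const_mul' _ _ ENNReal.ofReal_ne_top]
        rfl
    _ ≤ _ := by
        gcongr
        refine (conv_bound hq hη hg).trans ?_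
        gcongr
        rw [← lintegral_const_mul _ (by fun_prop)]
        apply lintegral_mono
        intro w
        simp only
        calc ‖η w‖ₑ * ∫⁻ x, g x w ^ q ≤ ‖η w‖ₑ * (2 ^ q * besov q u * min ‖z‖ₑ ‖ε • w‖ₑ) := by
              gcongr
              exact inner_bound hq hu z (ε • w)
          _ = _ := by ring

end Pool.Agent.Results.MP_c377d9_an.LogGagliardo

namespace Pool.Agent.Results.MP_c377d9_an.LogGagliardo
variable {N d : ℕ}

/-- tail quantity of the kernel -/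
noncomputable def tau (η : Eu N → ℝ) (K : ℕ) : ℝ≥0∞ := ∫⁻ w, ‖η w‖ₑ * min 1 (‖w‖ₑ / K)

/-- error term -/
noncomputable def eK (η : Eu N → ℝ) (K : ℕ) : ℝ≥0∞ :=
  volume (Metric.ball (0 : Eu N) 1) * ((∫⁻ w, ‖η w‖ₑ) * (K : ℝ≥0∞)⁻¹ + tau η K)

lemma tendsto_eK {η : Eu N → ℝ} (hη : Measurable η) (hηi : Integrable η) :
    Tendsto (eK η) atTop (𝓝 0) := by
  have hA : ∫⁻ w, ‖η w‖ₑ ≠ ∞ := hηi.2.ne
  have hV : volume (Metric.ball (0 : Eu N) 1) ≠ ∞ := measure_ball_lt_top.ne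
  have h1 : Tendsto (fun K : ℕ => (∫⁻ w, ‖η w‖ₑ) * (K : ℝ≥0∞)⁻¹) atTop (𝓝 0) := by
    have := ENNReal.Tendsto.const_mul (a := ∫⁻ w, ‖η w‖ₑ) ENNReal.tendsto_inv_nat_nhds_zero
      (Or.inr hA)
    simpa using this
  have h2 : Tendsto (tau η) atTop (𝓝 0) := by
    have h3 : Tendsto (fun K : ℕ => ∫⁻ w, ‖η w‖ₑ * min 1 (‖w‖ₑ / K)) atTop
        (𝓝 (∫⁻ w : Eu N, (0 : ℝ≥0∞))) := by
      apply tendsto_lintegral_of_dominated_convergence (fun w => ‖η w‖ₑ)
      · intro K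
        fun_prop
      · intro K
        refine Eventually.of_forall fun w => ?_
        calc ‖η w‖ₑ * min 1 (‖w‖ₑ / K) ≤ ‖η w‖ₑ * 1 := by gcongr; exact min_le_left _ _
          _ = _ := mul_one _
      · exact hA
      · refine Eventually.of_forall fun w => ?_
        have e1 : Tendsto (fun K : ℕ => ‖w‖ₑ / (K : ℝ≥0∞)) atTop (𝓝 0) := by
          have := ENNReal.Tendsto.const_mul (a := ‖w‖ₑ) ENNReal.tendsto_inv_nat_nhds_zero
            (Or.inr enorm_ne_top)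
          simpa [div_eq_mul_inv] using this
        have e2 : Tendsto (fun K : ℕ => min 1 (‖w‖ₑ / (K : ℝ≥0∞))) atTop (𝓝 0) := by
          have := (tendsto_const_nhds (x := (1 : ℝ≥0∞))).min e1
          simpa using this
        have := ENNReal.Tendsto.const_mul (a := ‖η w‖ₑ) e2 (Or.inr enorm_ne_top)
        simpa using this
    rw [lintegral_zero] at h3
    exact h3
  have h4 := ENNReal.Tendsto.const_mul (a := volume (Metric.ball (0 : Eu N) 1)) (h1.add h2)
    (Or.inr hV)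
  rw [add_zero, mul_zero] at h4
  exact h4

lemma err_bound (hN : 0 < N) {η : Eu N → ℝ} (hη : Measurable η)
    {K : ℕ} (hK : 1 ≤ K) {ε r : ℝ} (hε : 0 < ε) (hr : (K : ℝ) ^ 2 * ε ≤ r) :
    (ENNReal.ofReal r ^ N)⁻¹ * ∫⁻ z in Metric.ball (0 : Eu N) r,
      (∫⁻ w, ‖η w‖ₑ * min ‖z‖ₑ ‖ε • w‖ₑ) / ‖z‖ₑ ≤ eK η K := by
  have hK0 : (0:ℝ) < K := by exact_mod_cast hK
  have hr0 : 0 < r := lt_of_lt_of_le (by positivity) hr
  have hpt : ∀ z : Eu N, (∫⁻ w, ‖η w‖ₑ * min ‖z‖ₑ ‖ε • w‖ₑ) / ‖z‖ₑ ≤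
      (Metric.ball (0 : Eu N) (r / K)).indicator (fun _ => ∫⁻ w, ‖η w‖ₑ) z + tau η K := by
    intro z
    by_cases hz : z ∈ Metric.ball (0 : Eu N) (r / K)
    · rw [indicator_of_mem hz]
      refine le_trans ?_ le_self_add
      calc (∫⁻ w, ‖η w‖ₑ * min ‖z‖ₑ ‖ε • w‖ₑ) / ‖z‖ₑ
          ≤ (∫⁻ w, ‖η w‖ₑ * ‖z‖ₑ) / ‖z‖ₑ := by
            gcongr
            exact min_le_left _ _
        _ = (∫⁻ w, ‖η w‖ₑ) * (‖z‖ₑ / ‖z‖ₑ) := by
            rw [lintegral_mul_const _ hη.enorm, mul_div_assoc]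
        _ ≤ (∫⁻ w, ‖η w‖ₑ) * 1 := by
            gcongr
            exact ENNReal.div_self_le_one
        _ = _ := mul_one _
    · rw [indicator_of_notMem hz, zero_add]
      have hz1 : r / K ≤ ‖z‖ := by simpa using hz
      have hz2 : K * ε ≤ ‖z‖ := by
        refine le_trans ?_ hz1
        rw [le_div_iff₀ hK0]
        nlinarith
      have hz0 : 0 < ‖z‖ := lt_of_lt_of_le (by positivity) hz2
      rw [div_eq_mul_inv, ← lintegral_mul_const _ (by fun_prop)]
      unfold tau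
      apply lintegral_mono
      intro w
      simp only
      rw [mul_assoc]
      gcongr
      rw [← div_eq_mul_inv]
      apply le_min
      · calc min ‖z‖ₑ ‖ε • w‖ₑ / ‖z‖ₑ ≤ ‖z‖ₑ / ‖z‖ₑ := by gcongr; exact min_le_left _ _
          _ ≤ 1 := ENNReal.div_self_le_one
      · calc min ‖z‖ₑ ‖ε • w‖ₑ / ‖z‖ₑ ≤ ‖ε • w‖ₑ / ‖z‖ₑ := by gcongr; exact min_le_right _ _
          _ ≤ ‖w‖ₑ / K := by
              rw [enorm_smul, ← ofReal_norm, ← ofReal_norm, ← ofReal_norm,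
                ← ENNReal.ofReal_mul (norm_nonneg _), ← ENNReal.ofReal_div_of_pos hz0,
                ← ENNReal.ofReal_natCast K, ← ENNReal.ofReal_div_of_pos hK0]
              apply ENNReal.ofReal_le_ofReal
              rw [Real.norm_of_nonneg hε.le, div_le_div_iff₀ hz0 hK0]
              calc ε * ‖w‖ * K = ‖w‖ * (K * ε) := by ring
                _ ≤ ‖w‖ * ‖z‖ := by gcongr
  have hball : ∀ s : ℝ, 0 < s → volume (Metric.ball (0 : Eu N) s)
      = ENNReal.ofReal s ^ N * volume (Metric.ball (0 : Eu N) 1) := by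
    intro s hs
    rw [Measure.addHaar_ball_of_pos volume (0 : Eu N) hs, finrank_euclideanSpace_fin,
      ENNReal.ofReal_pow hs.le]
  have hrN : ENNReal.ofReal r ^ N ≠ 0 := by
    apply pow_ne_zero; simpa using hr0
  have hrN' : ENNReal.ofReal r ^ N ≠ ∞ := ENNReal.pow_ne_top ENNReal.ofReal_ne_top
  calc (ENNReal.ofReal r ^ N)⁻¹ * ∫⁻ z in Metric.ball (0 : Eu N) r,
      (∫⁻ w, ‖η w‖ₑ * min ‖z‖ₑ ‖ε • w‖ₑ) / ‖z‖ₑ
      ≤ (ENNReal.ofReal r ^ N)⁻¹ * ∫⁻ z in Metric.ball (0 : Eu N) r,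
        ((Metric.ball (0 : Eu N) (r / K)).indicator (fun _ => ∫⁻ w, ‖η w‖ₑ) z + tau η K) := by
        gcongr with z
        exact hpt z
    _ ≤ (ENNReal.ofReal r ^ N)⁻¹ * ((∫⁻ w, ‖η w‖ₑ) * volume (Metric.ball (0 : Eu N) (r / K))
        + tau η K * volume (Metric.ball (0 : Eu N) r)) := by
        gcongr
        rw [lintegral_add_right _ measurable_const, setLIntegral_const]
        gcongr
        refine (setLIntegral_le_lintegral _ _).trans_eq ?_
        rw [lintegral_indicator Metric.isOpen_ball.measurableSet, setLIntegral_const]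
    _ = volume (Metric.ball (0 : Eu N) 1) *
        ((∫⁻ w, ‖η w‖ₑ) * ((K : ℝ≥0∞) ^ N)⁻¹ + tau η K) := by
        rw [hball _ (by positivity), hball _ hr0, ENNReal.ofReal_div_of_pos hK0,
          ENNReal.ofReal_natCast, div_eq_mul_inv, mul_pow, ← ENNReal.inv_pow]
        calc (ENNReal.ofReal r ^ N)⁻¹ * ((∫⁻ w, ‖η w‖ₑ) *
            (ENNReal.ofReal r ^ N * ((K : ℝ≥0∞) ^ N)⁻¹ * volume (Metric.ball (0 : Eu N) 1))
            + tau η K * (ENNReal.ofReal r ^ N * volume (Metric.ball (0 : Eu N) 1)))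
            = ((ENNReal.ofReal r ^ N)⁻¹ * ENNReal.ofReal r ^ N) *
              (volume (Metric.ball (0 : Eu N) 1) *
              ((∫⁻ w, ‖η w‖ₑ) * ((K : ℝ≥0∞) ^ N)⁻¹ + tau η K)) := by ring
          _ = _ := by rw [ENNReal.inv_mul_cancel hrN hrN', one_mul]
    _ ≤ eK η K := by
        unfold eK
        gcongr
        have : (1:ℝ≥0∞) ≤ K := by exact_mod_cast hK
        calc (K:ℝ≥0∞) = (K:ℝ≥0∞) ^ 1 := (pow_one _).symm
          _ ≤ (K:ℝ≥0∞) ^ N := pow_le_pow_right₀ this hN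

lemma measurable_moll {η : Eu N → ℝ} (hη : Measurable η) {u : Eu N → Eu d} (hu : Measurable u)
    (ε : ℝ) : Measurable (moll η ε u) := by
  unfold moll
  have : StronglyMeasurable (Function.uncurry fun (x w : Eu N) => η w • u (x - ε • w)) := by
    apply Measurable.stronglyMeasurable
    unfold Function.uncurry
    fun_prop
  exact this.integral_prod_right'.measurable

lemma ball_bound (hN : 0 < N) {q : ℝ} (hq : 1 < q) {θ : ℝ} (h0 : 0 < θ) (h1 : θ < 1)
    {η : Eu N → ℝ} (hη : Measurable η)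
    (hηi : Integrable η) {u : Eu N → Eu d} (hu : Measurable u)
    (huq : ∫⁻ x, ‖u x‖ₑ ^ q < ∞) {K : ℕ} (hK : 1 ≤ K) {ε r : ℝ} (hε : 0 < ε)
    (hr : (K : ℝ) ^ 2 * ε ≤ r) :
    ‖∫ w, η w‖ₑ ^ q * ballEnergy q u r ≤
      ENNReal.ofReal ((1 - θ) ^ (1 - q)) * ballEnergy q (moll η ε u) r
      + ENNReal.ofReal (θ ^ (1 - q)) * ((∫⁻ w, ‖η w‖ₑ) ^ (q - 1) *
        (2 ^ q * besov q u * eK η K)) := by
  have hm := measurable_moll hη hu ε
  have hD := measurable_D (q := q) hu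
  have hDm := measurable_D (q := q) hm
  have hW : Measurable (fun z : Eu N => ∫⁻ w, ‖η w‖ₑ * min ‖z‖ₑ ‖ε • w‖ₑ) := by
    have : Measurable (Function.uncurry fun (z w : Eu N) => ‖η w‖ₑ * min ‖z‖ₑ ‖ε • w‖ₑ) := by
      unfold Function.uncurry
      fun_prop
    exact this.lintegral_prod_right'
  rw [ball_eq hu, ball_eq hm]
  set c := ‖∫ w, η w‖ₑ ^ q with hc
  set k1 := ENNReal.ofReal ((1 - θ) ^ (1 - q)) with hk1
  set k2 := ENNReal.ofReal (θ ^ (1 - q)) with hk2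
  set A := (∫⁻ w, ‖η w‖ₑ) ^ (q - 1) with hA
  set B := 2 ^ q * besov q u with hB
  set R := (ENNReal.ofReal r ^ N)⁻¹ with hR
  calc c * (R * ∫⁻ z in Metric.ball 0 r, D q u z / ‖z‖ₑ)
      = R * ∫⁻ z in Metric.ball 0 r, c * D q u z / ‖z‖ₑ := by
        simp only [mul_div_assoc]
        rw [lintegral_const_mul _ (by fun_prop)]
        ring
    _ ≤ R * ∫⁻ z in Metric.ball 0 r, (k1 * D q (moll η ε u) z + k2 * (A *
        (B * ∫⁻ w, ‖η w‖ₑ * min ‖z‖ₑ ‖ε • w‖ₑ))) / ‖z‖ₑ := by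
        gcongr with z
        exact diff_bound hq h0 h1 hη hηi hu huq ε z
    _ = R * ∫⁻ z in Metric.ball 0 r, (k1 * (D q (moll η ε u) z / ‖z‖ₑ) + k2 * (A * B) *
        ((∫⁻ w, ‖η w‖ₑ * min ‖z‖ₑ ‖ε • w‖ₑ) / ‖z‖ₑ)) := by
        congr 1
        apply lintegral_congr
        intro z
        simp only [div_eq_mul_inv]
        ring
    _ = k1 * (R * ∫⁻ z in Metric.ball 0 r, D q (moll η ε u) z / ‖z‖ₑ) + k2 * (A * B) *
        (R * ∫⁻ z in Metric.ball (0 : Eu N) r,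
          (∫⁻ w, ‖η w‖ₑ * min ‖z‖ₑ ‖ε • w‖ₑ) / ‖z‖ₑ) := by
        rw [lintegral_add_left (by fun_prop), lintegral_const_mul _ (by fun_prop),
          lintegral_const_mul _ (by fun_prop)]
        ring
    _ ≤ k1 * (R * ∫⁻ z in Metric.ball 0 r, D q (moll η ε u) z / ‖z‖ₑ) + k2 * (A * B) *
        eK η K := by
        gcongr
        exact err_bound hN hη hK hε hr
    _ = _ := by ring

lemma gag_lower (hN : 0 < N) {q : ℝ} {v : Eu N → Eu d} (hv : Measurable v) (a : ℝ) :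
    (N : ℝ≥0∞) * ∫⁻ r in Ioo a 1, (ENNReal.ofReal r)⁻¹ * ballEnergy q v r ≤ gagliardo q v := by
  rw [gag_eq hv]
  simp_rw [ball_eq hv]
  have hD := measurable_D (q := q) hv
  have h1 := radial hN (Φ := fun z => D q v z / ‖z‖ₑ) (by fun_prop) a
  refine h1.trans_eq ?_
  apply lintegral_congr
  intro z
  rw [div_eq_mul_inv, div_eq_mul_inv, div_eq_mul_inv, mul_assoc, pow_succ' ‖z‖ₑ N,
    ENNReal.mul_inv (Or.inr (ENNReal.pow_ne_top enorm_ne_top)) (Or.inl enorm_ne_top)]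

end Pool.Agent.Results.MP_c377d9_an.LogGagliardo

namespace Pool.Agent.Results.MP_c377d9_an.LogGagliardo
variable {N d : ℕ}

lemma log_int {a b : ℝ} (ha : 0 < a) (hab : a ≤ b) :
    ∫⁻ r in Ioo a b, (ENNReal.ofReal r)⁻¹ = ENNReal.ofReal (Real.log (b / a)) := by
  have hb : 0 < b := lt_of_lt_of_le ha hab
  rw [Measure.restrict_congr_set Ioo_ae_eq_Ioc, ← integral_inv_of_pos ha hb,
    intervalIntegral.integral_of_le hab, ofReal_integral_eq_lintegral_ofReal]
  · apply setLIntegral_congr_fun measurableSet_Ioc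
    intro r hr
    simp only
    rw [ENNReal.ofReal_inv_of_pos (ha.trans hr.1)]
  · have : IntervalIntegrable (fun x : ℝ => x⁻¹) volume a b := by
      apply intervalIntegral.intervalIntegrable_inv
      · intro x hx
        rw [uIcc_of_le hab] at hx
        exact (lt_of_lt_of_le ha hx.1).ne'
      · exact continuousOn_id
    exact (intervalIntegrable_iff_integrableOn_Ioc_of_le hab).mp this
  · rw [Filter.EventuallyLE, ae_restrict_iff' measurableSet_Ioc]
    refine Eventually.of_forall fun r hr => ?_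
    have : 0 < r := ha.trans hr.1
    simp only [Pi.zero_apply]
    positivity

lemma key (hN : 0 < N) {q : ℝ} (hq : 1 < q) {θ : ℝ} (h0 : 0 < θ) (h1 : θ < 1)
    {η : Eu N → ℝ} (hη : Measurable η)
    (hηi : Integrable η) {u : Eu N → Eu d} (hu : Measurable u)
    (huq : ∫⁻ x, ‖u x‖ₑ ^ q < ∞) {K : ℕ} (hK : 1 ≤ K) {ε r0 : ℝ} (hε : 0 < ε)
    (hr0 : r0 ≤ 1) (hr : (K : ℝ) ^ 2 * ε ≤ r0) {l : ℝ≥0∞}
    (hl : ∀ r, 0 < r → r < r0 → l ≤ ballEnergy q u r) :
    ‖∫ w, η w‖ₑ ^ q * l * N * ENNReal.ofReal (Real.log (r0 / ((K : ℝ) ^ 2 * ε))) ≤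
      ENNReal.ofReal ((1 - θ) ^ (1 - q)) * gagliardo q (moll η ε u)
      + ENNReal.ofReal (θ ^ (1 - q)) * ((∫⁻ w, ‖η w‖ₑ) ^ (q - 1) *
        (2 ^ q * besov q u * eK η K)) * N *
        ENNReal.ofReal (Real.log (r0 / ((K : ℝ) ^ 2 * ε))) := by
  have hK0 : (0:ℝ) < K := by exact_mod_cast hK
  have ha : 0 < (K : ℝ) ^ 2 * ε := by positivity
  rw [← log_int ha hr]
  set c := ‖∫ w, η w‖ₑ ^ q with hc
  set k1 := ENNReal.ofReal ((1 - θ) ^ (1 - q)) with hk1
  set C := ENNReal.ofReal (θ ^ (1 - q)) * ((∫⁻ w, ‖η w‖ₑ) ^ (q - 1) *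
        (2 ^ q * besov q u * eK η K)) with hC
  set a := (K : ℝ) ^ 2 * ε with hadef
  have hinv : Measurable (fun r : ℝ => (ENNReal.ofReal r)⁻¹) := by fun_prop
  calc c * l * N * ∫⁻ r in Ioo a r0, (ENNReal.ofReal r)⁻¹
      = N * ∫⁻ r in Ioo a r0, (c * l) * (ENNReal.ofReal r)⁻¹ := by
        rw [lintegral_const_mul _ hinv]; ring
    _ ≤ N * ∫⁻ r in Ioo a r0, (k1 * ((ENNReal.ofReal r)⁻¹ * ballEnergy q (moll η ε u) r)
        + C * (ENNReal.ofReal r)⁻¹) := by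
        refine mul_le_mul' le_rfl ?_
        apply setLIntegral_mono' measurableSet_Ioo
        intro r hr'
        have h2 := ball_bound hN hq h0 h1 hη hηi hu huq hK hε hr'.1.le
        calc (c * l) * (ENNReal.ofReal r)⁻¹
            ≤ (c * ballEnergy q u r) * (ENNReal.ofReal r)⁻¹ := by
              gcongr
              exact hl r (ha.trans hr'.1) hr'.2
          _ ≤ (k1 * ballEnergy q (moll η ε u) r + C) * (ENNReal.ofReal r)⁻¹ := by
              gcongr
          _ = _ := by ring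
    _ = k1 * (N * ∫⁻ r in Ioo a r0, (ENNReal.ofReal r)⁻¹ * ballEnergy q (moll η ε u) r)
        + C * N * ∫⁻ r in Ioo a r0, (ENNReal.ofReal r)⁻¹ := by
        rw [lintegral_add_right _ (hinv.const_mul _), lintegral_const_mul _ hinv,
          lintegral_const_mul' _ _ ENNReal.ofReal_ne_top]
        ring
    _ ≤ k1 * gagliardo q (moll η ε u) + C * N * ∫⁻ r in Ioo a r0, (ENNReal.ofReal r)⁻¹ := by
        gcongr
        refine le_trans ?_ (gag_lower hN (measurable_moll hη hu ε) a)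
        gcongr

lemma core (hN : 0 < N) {q : ℝ} (hq : 1 < q)
    {η : Eu N → ℝ} (hη : Measurable η)
    (hηi : Integrable η) {u : Eu N → Eu d} (hu : Measurable u)
    (huq : ∫⁻ x, ‖u x‖ₑ ^ q < ∞) (hB : besov q u < ∞) {l y : ℝ≥0∞}
    (hl : l < liminf (fun r => ballEnergy q u r) (𝓝[>] 0))
    (hy : liminf (fun ε => gagliardo q (moll η ε u) / ENNReal.ofReal |Real.log ε|) (𝓝[>] 0) < y) :
    ‖∫ w, η w‖ₑ ^ q * l * N ≤ y := by
  have hev := eventually_lt_of_lt_liminf hl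
  have hfr := frequently_lt_of_liminf_lt (by isBoundedDefault) hy
  obtain ⟨r1, hr1, hr1'⟩ := mem_nhdsGT_iff_exists_Ioo_subset.mp hev
  set r0 : ℝ := min r1 1 with hr0
  have hr00 : 0 < r0 := lt_min hr1 one_pos
  have hl' : ∀ r, 0 < r → r < r0 → l ≤ ballEnergy q u r := fun r h1 h2 =>
    (hr1' ⟨h1, h2.trans_le (min_le_left _ _)⟩ : _).le
  -- fixed s and K
  have step1 : ∀ s : ℝ, 0 < s → s < 1 → ∀ K : ℕ, 1 ≤ K →
      ‖∫ w, η w‖ₑ ^ q * l * N * ENNReal.ofReal (1 - s) ≤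
      ENNReal.ofReal ((1 - s) ^ (1 - q)) * y
      + ENNReal.ofReal (s ^ (1 - q)) * ((∫⁻ w, ‖η w‖ₑ) ^ (q - 1) *
        (2 ^ q * besov q u * eK η K)) * N := by
    intro s hs0 hs1 K hK
    have hK0 : (0:ℝ) < K := by exact_mod_cast hK
    have hK1 : (1:ℝ) ≤ K := by exact_mod_cast hK
    have hlog : Tendsto Real.log (𝓝[>] 0) atBot := Real.tendsto_log_nhdsGT_zero
    have e1 : ∀ᶠ ε in 𝓝[>] (0:ℝ), s * Real.log ε ≤ Real.log (r0 / K ^ 2) := by
      have : Tendsto (fun ε => s * Real.log ε) (𝓝[>] 0) atBot :=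
        Tendsto.const_mul_atBot hs0 hlog
      exact this.eventually_le_atBot _
    have e2 : ∀ᶠ ε in 𝓝[>] (0:ℝ), ε < r0 / K ^ 2 :=
      Filter.Eventually.filter_mono nhdsWithin_le_nhds (eventually_lt_nhds (by positivity))
    have e3 : ∀ᶠ ε in 𝓝[>] (0:ℝ), 0 < ε := self_mem_nhdsWithin
    have e4 : ∀ᶠ ε in 𝓝[>] (0:ℝ), ε < 1 :=
      Filter.Eventually.filter_mono nhdsWithin_le_nhds (eventually_lt_nhds (by norm_num))
    obtain ⟨ε, hgy, he1, he2, he3, he4⟩ := (hfr.and_eventually (e1.and (e2.and (e3.and e4)))).exists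
    have hKe : (K:ℝ) ^ 2 * ε ≤ r0 := by
      rw [lt_div_iff₀ (by positivity)] at he2
      linarith
    have hlneg : Real.log ε < 0 := Real.log_neg he3 he4
    have habs : |Real.log ε| = - Real.log ε := abs_of_neg hlneg
    have hL : Real.log (r0 / ((K:ℝ) ^ 2 * ε)) = Real.log (r0 / K ^ 2) - Real.log ε := by
      rw [← div_div, Real.log_div (by positivity) he3.ne']
    have hL1 : Real.log (r0 / ((K:ℝ) ^ 2 * ε)) ≤ |Real.log ε| := by
      rw [hL, habs]
      have : Real.log (r0 / K ^ 2) ≤ 0 := by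
        apply Real.log_nonpos (by positivity)
        rw [div_le_one (by positivity)]
        calc r0 ≤ 1 := min_le_right _ _
          _ ≤ (K:ℝ) ^ 2 := one_le_pow₀ hK1
      linarith
    have hL2 : (1 - s) * |Real.log ε| ≤ Real.log (r0 / ((K:ℝ) ^ 2 * ε)) := by
      rw [hL, habs]; nlinarith
    set L := ENNReal.ofReal |Real.log ε| with hLdef
    have hL0 : L ≠ 0 := by
      rw [hLdef, Ne, ENNReal.ofReal_eq_zero, habs]; linarith
    have hLt : L ≠ ∞ := ENNReal.ofReal_ne_top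
    have hgag : gagliardo q (moll η ε u) ≤ y * L :=
      (ENNReal.div_le_iff hL0 hLt).mp hgy.le
    have hk := key hN hq hs0 hs1 hη hηi hu huq hK he3 (min_le_right _ _) hKe hl'
    have hfin : (‖∫ w, η w‖ₑ ^ q * l * N * ENNReal.ofReal (1 - s)) * L ≤
      (ENNReal.ofReal ((1 - s) ^ (1 - q)) * y
      + ENNReal.ofReal (s ^ (1 - q)) * ((∫⁻ w, ‖η w‖ₑ) ^ (q - 1) *
        (2 ^ q * besov q u * eK η K)) * N) * L := by
      calc (‖∫ w, η w‖ₑ ^ q * l * N * ENNReal.ofReal (1 - s)) * L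
          = ‖∫ w, η w‖ₑ ^ q * l * N * ENNReal.ofReal ((1 - s) * |Real.log ε|) := by
            rw [ENNReal.ofReal_mul (by linarith), mul_assoc]
        _ ≤ ‖∫ w, η w‖ₑ ^ q * l * N * ENNReal.ofReal (Real.log (r0 / ((K : ℝ) ^ 2 * ε))) := by
            gcongr
        _ ≤ _ := hk
        _ ≤ ENNReal.ofReal ((1 - s) ^ (1 - q)) * (y * L)
          + ENNReal.ofReal (s ^ (1 - q)) * ((∫⁻ w, ‖η w‖ₑ) ^ (q - 1) *
          (2 ^ q * besov q u * eK η K)) * N * L := by
            gcongr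
            exact ENNReal.ofReal_le_ofReal hL1
        _ = _ := by ring
    exact (ENNReal.mul_le_mul_iff_left hL0 hLt).mp hfin
  -- K to infinity
  have step2 : ∀ s : ℝ, 0 < s → s < 1 →
      ‖∫ w, η w‖ₑ ^ q * l * N * ENNReal.ofReal (1 - s) ≤ ENNReal.ofReal ((1 - s) ^ (1 - q)) * y := by
    intro s hs0 hs1
    have hA : (∫⁻ w, ‖η w‖ₑ) ^ (q - 1) ≠ ∞ :=
      ENNReal.rpow_ne_top_of_nonneg (by linarith) hηi.2.ne
    have hC : ENNReal.ofReal (s ^ (1 - q)) * ((∫⁻ w, ‖η w‖ₑ) ^ (q - 1) *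
        (2 ^ q * besov q u)) * N ≠ ∞ := by
      apply ENNReal.mul_ne_top _ (ENNReal.natCast_ne_top N)
      apply ENNReal.mul_ne_top ENNReal.ofReal_ne_top
      apply ENNReal.mul_ne_top hA
      apply ENNReal.mul_ne_top _ hB.ne
      exact ENNReal.rpow_ne_top_of_nonneg (by linarith) (by norm_num)
    have ht : Tendsto (fun K : ℕ => ENNReal.ofReal ((1 - s) ^ (1 - q)) * y
      + ENNReal.ofReal (s ^ (1 - q)) * ((∫⁻ w, ‖η w‖ₑ) ^ (q - 1) *
        (2 ^ q * besov q u)) * N * eK η K) atTop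
        (𝓝 (ENNReal.ofReal ((1 - s) ^ (1 - q)) * y + ENNReal.ofReal (s ^ (1 - q)) *
        ((∫⁻ w, ‖η w‖ₑ) ^ (q - 1) * (2 ^ q * besov q u)) * N * 0)) :=
      tendsto_const_nhds.add (ENNReal.Tendsto.const_mul (tendsto_eK hη hηi) (Or.inr hC))
    rw [mul_zero, add_zero] at ht
    apply ge_of_tendsto ht
    filter_upwards [eventually_ge_atTop 1] with K hK
    refine (step1 s hs0 hs1 K hK).trans_eq ?_
    ring
  -- s to 0
  have t1 : Tendsto (fun s : ℝ => ENNReal.ofReal (1 - s)) (𝓝[>] 0) (𝓝 1) := by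
    have : ContinuousAt (fun s : ℝ => ENNReal.ofReal (1 - s)) 0 :=
      (ENNReal.continuous_ofReal.comp (continuous_const.sub continuous_id)).continuousAt
    have h := this.tendsto
    simp only [sub_zero, ENNReal.ofReal_one] at h
    exact h.mono_left nhdsWithin_le_nhds
  have t2 : Tendsto (fun s : ℝ => ENNReal.ofReal ((1 - s) ^ (1 - q))) (𝓝[>] 0) (𝓝 1) := by
    have h1 : ContinuousAt (fun s : ℝ => (1 - s) ^ (1 - q)) 0 := by
      apply ContinuousAt.rpow_const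
      · fun_prop
      · left; norm_num
    have h2 : ContinuousAt (fun s : ℝ => ENNReal.ofReal ((1 - s) ^ (1 - q))) 0 :=
      ENNReal.continuous_ofReal.continuousAt.comp h1
    have h := h2.tendsto
    simp only [sub_zero, Real.one_rpow, ENNReal.ofReal_one] at h
    exact h.mono_left nhdsWithin_le_nhds
  have t3 := ENNReal.Tendsto.const_mul (a := ‖∫ w, η w‖ₑ ^ q * l * N) t1 (Or.inl one_ne_zero)
  have t4 := ENNReal.Tendsto.mul_const (b := y) t2 (Or.inl one_ne_zero)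
  rw [mul_one] at t3
  rw [one_mul] at t4
  apply le_of_tendsto_of_tendsto t3 t4
  have e3 : ∀ᶠ s in 𝓝[>] (0:ℝ), 0 < s := self_mem_nhdsWithin
  have e4 : ∀ᶠ s in 𝓝[>] (0:ℝ), s < 1 :=
    Filter.Eventually.filter_mono nhdsWithin_le_nhds (eventually_lt_nhds (by norm_num))
  filter_upwards [e3, e4] with s hs0 hs1
  exact step2 s hs0 hs1

/-- The lower bound of Q1 with `N` times the lower limit of the ball averages of the third listed
fact in place of the jump integral: for `1 < q`, every (Borel representative of) `u` in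
`B^{1/q}_{q,∞}` and every integrable `η`. -/
theorem result {N d : ℕ} (hN : 0 < N) {q : ℝ} (hq : 1 < q) {u : Eu N → Eu d}
    (hu : Measurable u) (huq : ∫⁻ x, ‖u x‖ₑ ^ q < ∞) (hB : besov q u < ∞)
    {η : Eu N → ℝ} (hη : Integrable η) :
    ‖∫ w, η w‖ₑ ^ q * N * liminf (fun r => ballEnergy q u r) (𝓝[>] 0) ≤
      liminf (fun ε => gagliardo q (moll η ε u) / ENNReal.ofReal |Real.log ε|) (𝓝[>] 0) := by
  have hae := hη.1.ae_eq_mk
  set η' : Eu N → ℝ := hη.1.mk η with hη'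
  have hm : Measurable η' := hη.1.stronglyMeasurable_mk.measurable
  have hi : Integrable η' := hη.congr hae
  have e1 : ∫ w, η w = ∫ w, η' w := integral_congr_ae hae
  have e2 : ∀ ε, moll η ε u = moll η' ε u := by
    intro ε
    funext x
    apply integral_congr_ae
    filter_upwards [hae] with z hz
    rw [hz]
  simp_rw [e2]
  rw [e1]
  apply le_of_forall_gt_imp_ge_of_dense
  intro y hy
  by_cases hc : ‖∫ w, η' w‖ₑ ^ q * (N : ℝ≥0∞) = 0
  · rw [hc, zero_mul]; exact zero_le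
  have hct : ‖∫ w, η' w‖ₑ ^ q * (N : ℝ≥0∞) ≠ ∞ :=
    ENNReal.mul_ne_top (ENNReal.rpow_ne_top_of_nonneg (by linarith) enorm_ne_top)
      (ENNReal.natCast_ne_top N)
  rw [mul_comm, ← ENNReal.le_div_iff_mul_le (Or.inl hc) (Or.inl hct)]
  apply le_of_forall_lt_imp_le_of_dense
  intro l hl
  rw [ENNReal.le_div_iff_mul_le (Or.inl hc) (Or.inl hct)]
  refine (le_of_eq ?_).trans (core hN hq hm hi hu huq hB hl hy)
  ring

end Pool.Agent.Results.MP_c377d9_an.LogGagliardo
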